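import Pool.Agent.X216.FW.Tree

/-!
# Under the continuum hypothesis the square of a Lindelof tree need not be Lindelof
-/

set_option autoImplicit false

namespace Pool.Agent.X216.FW

open Set Filter Topology Cardinal

/-- the restriction of a sequence -/
def res (b : ℕ → ℕ) (n : ℕ) : List ℕ := (List.range n).map b

@[simp] lemma length_res (b : ℕ → ℕ) (n : ℕ) : (res b n).length = n := by simp [res]

lemma res_succ (b : ℕ → ℕ) (n : ℕ) : res b (n + 1) = res b n ++ [b n] := by
  simp [res, List.range_succ]

lemma res_prefix (b : ℕ → ℕ) {m n : ℕ} (h : m ≤ n) : res b m <+: res b n := by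
  induction n, h using Nat.le_induction with
  | base => exact List.prefix_rfl
  | succ n _ ih =>
    rw [res_succ]
    exact ih.trans (List.prefix_append _ _)

lemma prefix_res {b : ℕ → ℕ} {n : ℕ} {s : List ℕ} (h : s <+: res b n) : res b s.length = s := by
  have hl : s.length ≤ n := by simpa using h.length_le
  exact ((List.prefix_of_prefix_length_le (res_prefix b hl) h (by simp)).eq_of_length (by simp))

/-- finite sequences together with the infinite sequences in `B` -/
def TB (B : Set (ℕ → ℕ)) : Type := List ℕ ⊕ B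

variable {B : Set (ℕ → ℕ)}

/-- the order of end extension -/
def TB.le : TB B → TB B → Prop
  | Sum.inl s, Sum.inl t => s <+: t
  | Sum.inl s, Sum.inr b => res b.1 s.length = s
  | Sum.inr _, Sum.inl _ => False
  | Sum.inr b, Sum.inr c => b = c

instance : PartialOrder (TB B) where
  le := TB.le
  le_refl x := by
    rcases x with s | b
    · exact List.prefix_rfl
    · exact rfl
  le_trans x y z hxy hyz := by
    rcases x with s | b <;> rcases y with t | c <;> rcases z with u | d
    · exact List.IsPrefix.trans hxy hyz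
    · have h1 : res d.1 t.length = t := hyz
      have h2 : s <+: t := hxy
      rw [← h1] at h2
      exact prefix_res h2
    · exact hyz.elim
    · have h1 : c = d := hyz
      subst h1
      exact hxy
    · exact hxy.elim
    · exact hxy.elim
    · exact hyz.elim
    · exact Eq.trans hxy hyz
  le_antisymm x y hxy hyx := by
    rcases x with s | b <;> rcases y with t | c
    · exact congrArg Sum.inl (List.IsPrefix.eq_of_length_le hxy (List.IsPrefix.length_le hyx))
    · exact hyx.elim
    · exact hxy.elim
    · exact congrArg Sum.inr hxy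

/-- a finite node -/
def nd (B : Set (ℕ → ℕ)) (s : List ℕ) : TB B := Sum.inl s

/-- a leaf -/
def lf (b : B) : TB B := Sum.inr b

lemma nd_le_nd {s t : List ℕ} : nd B s ≤ nd B t ↔ s <+: t := Iff.rfl

lemma nd_le_lf {s : List ℕ} {b : B} : nd B s ≤ lf b ↔ res b.1 s.length = s := Iff.rfl

lemma lf_le {b : B} {x : TB B} : lf b ≤ x ↔ x = lf b := by
  rcases x with s | c
  · exact ⟨fun h => h.elim, fun h => by cases h⟩
  · exact ⟨fun h => congrArg Sum.inr (Eq.symm h), fun h => by rw [h]⟩

/-- the rank -/
def rk : TB B → WithTop ℕ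
  | Sum.inl s => (s.length : WithTop ℕ)
  | Sum.inr _ => ⊤

lemma rk_lt {x y : TB B} (h : x < y) : rk x < rk y := by
  rcases x with s | b <;> rcases y with t | c
  · have h1 : s <+: t := h.le
    have h2 : s.length < t.length := by
      refine lt_of_le_of_ne h1.length_le fun he => h.ne ?_
      exact congrArg Sum.inl (h1.eq_of_length he)
    show (s.length : WithTop ℕ) < (t.length : WithTop ℕ)
    exact_mod_cast h2
  · exact WithTop.coe_lt_top _
  · exact h.le.elim
  · exact (h.ne (congrArg Sum.inr h.le)).elim

lemma lin_TB {x y z : TB B} (hy : y ≤ x) (hz : z ≤ x) : y ≤ z ∨ z ≤ y := by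
  rcases y with s | b
  · rcases z with t | c
    · rcases x with u | d
      · exact List.prefix_or_prefix_of_prefix hy hz
      · have h1 : res d.1 s.length = s := hy
        have h2 : res d.1 t.length = t := hz
        rcases le_total s.length t.length with h | h
        · left
          show s <+: t
          rw [← h1, ← h2]
          exact res_prefix _ h
        · right
          show t <+: s
          rw [← h1, ← h2]
          exact res_prefix _ h
    · have h1 : x = lf c := lf_le.1 hz
      left
      rw [h1] at hy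
      exact hy
  · have h1 : x = lf b := lf_le.1 hy
    right
    rw [h1] at hz
    exact hz

lemma isTree_TB (B : Set (ℕ → ℕ)) : IsTree (TB B) := by
  intro x
  refine { wf := ?_, trichotomous := ?_ }
  · exact Subrelation.wf (r := InvImage (· < ·) (fun a : Iio x => rk a.1))
      (fun {a b} h => rk_lt h) (InvImage.wf _ wellFounded_lt)
  · intro a b h1 h2
    rcases lin_TB a.2.le b.2.le with h | h
    · exact Subtype.ext (by
        by_contra hne
        exact h1 (lt_of_le_of_ne h hne))
    · exact Subtype.ext (by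
        by_contra hne
        exact h2 (lt_of_le_of_ne h (Ne.symm hne)))

/-- the entry of a node at place `n` -/
def entry (n : ℕ) : TB B → ℕ
  | Sum.inl s => s.getD n 0
  | Sum.inr b => b.1 n

lemma entry_eq {x y : TB B} (h : x ≤ y) {n : ℕ} (hx : (n : WithTop ℕ) < rk x) :
    entry n x = entry n y := by
  rcases x with s | b
  · have hn : n < s.length := by
      have : ((n : ℕ) : WithTop ℕ) < (s.length : WithTop ℕ) := hx
      exact_mod_cast this
    rcases y with t | c
    · obtain ⟨u, hu⟩ : s <+: t := h
      show s.getD n 0 = t.getD n 0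
      rw [← hu, List.getD_append _ _ _ _ hn]
    · have h1 : res c.1 s.length = s := h
      show s.getD n 0 = c.1 n
      rw [← h1, List.getD_eq_getElem _ _ (by simpa using hn)]
      simp [res]
  · have h1 : y = lf b := lf_le.1 h
    rw [h1]
    rfl

/-- a sufficient condition for the Lindelof property -/
lemma lindelof_TB (hB : ∀ g : List ℕ → ℕ, {b ∈ B | ∀ n, b n ≤ g (res b n)}.Countable) :
    LindelofTree (TB B) := by
  classical
  let _ : TopologicalSpace (TB B) := fineWedge (TB B)
  show LindelofSpace (TB B)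
  refine ⟨isLindelof_of_countable_subcover fun {ι} U hU hcov => ?_⟩
  have h1 : ∀ p : TB B, ∃ i, p ∈ U i := fun p => mem_iUnion.1 (hcov (mem_univ p))
  choose i hi using h1
  have h2 : ∀ s : List ℕ, ∃ H : Set (TB B), H.Finite ∧ (∀ h ∈ H, nd B s < h) ∧
      (Ici (nd B s) \ ⋃ h ∈ H, Ici h) ⊆ U (i (nd B s)) := fun s =>
    exists_basic (isTree_TB B) rfl (hU _) _ (hi _)
  choose H hH1 hH2 hH3 using h2
  let g : List ℕ → ℕ := fun s => (hH1 s).toFinset.sup (entry s.length)
  have hc := hB g
  refine ⟨(fun s => i (nd B s)) '' univ ∪ (fun b : B => i (lf b)) '' {b | ∀ n, b.1 n ≤ g (res b.1 n)},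
    ?_, ?_⟩
  · refine (countable_univ.image _).union (Set.Countable.image ?_ _)
    refine countable_of_injective_of_countable_image Subtype.val_injective.injOn (hc.mono ?_)
    rintro _ ⟨b, hb, rfl⟩
    exact ⟨b.2, hb⟩
  · rintro (s | b) _
    · exact mem_iUnion₂.2 ⟨_, Or.inl ⟨s, mem_univ _, rfl⟩, hi (nd B s)⟩
    · by_cases hb : ∀ n, b.1 n ≤ g (res b.1 n)
      · exact mem_iUnion₂.2 ⟨_, Or.inr ⟨b, hb, rfl⟩, hi (lf b)⟩
      · push Not at hb
        obtain ⟨n, hn⟩ := hb
        refine mem_iUnion₂.2 ⟨_, Or.inl ⟨res b.1 n, mem_univ _, rfl⟩, hH3 _ ⟨?_, ?_⟩⟩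
        · show nd B (res b.1 n) ≤ lf b
          rw [nd_le_lf, length_res]
        · intro hm
          obtain ⟨h, hh, hle⟩ := mem_iUnion₂.1 hm
          have hle' : h ≤ lf b := hle
          have h3 : rk (nd B (res b.1 n)) < rk h := rk_lt (hH2 _ h hh)
          have h4 : ((n : ℕ) : WithTop ℕ) < rk h := by
            have e : rk (nd B (res b.1 n)) = ((n : ℕ) : WithTop ℕ) := by
              show (((res b.1 n).length : ℕ) : WithTop ℕ) = _
              rw [length_res]
            rwa [e] at h3
          have h5 := entry_eq hle' h4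
          have h6 : entry n h ≤ g (res b.1 n) := by
            have : entry (res b.1 n).length h ≤ g (res b.1 n) :=
              Finset.le_sup (f := entry (res b.1 n).length) ((hH1 _).mem_toFinset.2 hh)
            rwa [length_res] at this
          rw [h5] at h6
          exact absurd h6 (not_le.2 hn)

/-- a sufficient condition for the square to be non-Lindelof -/
lemma not_lindelof_TB {I : Type} (hI : ¬ (univ : Set I).Countable) (b c : I → B)
    (hb : ∀ x, {i | b i = x}.Countable) (hc : ∀ x, {i | c i = x}.Countable)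
    (hbc : ∀ m n, ∃ v, ∀ i, (b i).1 m ≤ v ∨ (c i).1 n ≤ v) :
    ¬ LindelofProd (TB B) (TB B) := by
  classical
  let τ : TopologicalSpace (TB B) := fineWedge (TB B)
  intro hL
  have hL' : LindelofSpace (TB B × TB B) := hL
  obtain ⟨⟨p, q⟩, hpq⟩ := exists_condensation (fun i => (lf (b i), lf (c i))) hI
  rcases p with s | x
  · rcases q with t | y
    · obtain ⟨v, hv⟩ := hbc s.length t.length
      let H : List ℕ → Set (TB B) := fun s => (fun k => nd B (s ++ [k])) '' Iic v
      have hHf : ∀ s, (H s).Finite := fun s => (finite_Iic v).image _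
      have hH : ∀ s, ∀ h ∈ H s, nd B s < h := by
        rintro s _ ⟨k, _, rfl⟩
        refine lt_of_le_of_ne ?_ ?_
        · exact nd_le_nd.2 (List.prefix_append _ _)
        · intro h
          have : s = s ++ [k] := Sum.inl.inj h
          simp at this
      have key : ∀ (s : List ℕ) (x : B), x.1 s.length ≤ v →
          lf x ∉ Ici (nd B s) \ ⋃ h ∈ H s, Ici h := by
        rintro s x hx ⟨h1, h2⟩
        apply h2
        refine mem_iUnion₂.2 ⟨nd B (s ++ [x.1 s.length]), ⟨_, hx, rfl⟩, ?_⟩
        have h3 : res x.1 s.length = s := h1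
        show nd B (s ++ [x.1 s.length]) ≤ lf x
        rw [nd_le_lf]
        have e : (s ++ [x.1 s.length]).length = s.length + 1 := by simp
        rw [e, res_succ, h3]
      refine hpq ((Ici (nd B s) \ ⋃ h ∈ H s, Ici h) ×ˢ (Ici (nd B t) \ ⋃ h ∈ H t, Ici h))
        ((isOpen_basic rfl _ _ (hHf s)).prod (isOpen_basic rfl _ _ (hHf t)))
        ⟨mem_basic (hH s), mem_basic (hH t)⟩ (countable_empty.mono ?_)
      rintro i ⟨h1, h2⟩
      rcases hv i with h | h
      · exact key s (b i) h h1
      · exact key t (c i) h h2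
    · refine hpq (Set.univ ×ˢ Ici (lf y)) (isOpen_univ.prod (isOpen_Ici rfl _))
        ⟨mem_univ _, self_mem_Ici⟩ ((hc y).mono ?_)
      rintro i ⟨_, h2⟩
      exact Sum.inr.inj (lf_le.1 h2)
  · refine hpq (Ici (lf x) ×ˢ Set.univ) ((isOpen_Ici rfl _).prod isOpen_univ)
      ⟨self_mem_Ici, mem_univ _⟩ ((hb x).mono ?_)
    rintro i ⟨h1, _⟩
    exact Sum.inr.inj (lf_le.1 h1)

/-! ### the sequences -/

open Classical in
/-- `t k ↦ t (k + 1)` for `k` of parity `p`, and `0` at all other places -/
noncomputable def jump (t : ℕ → ℕ) (p n : ℕ) : ℕ :=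
  if h : ∃ k, k % 2 = p ∧ t k = n then t (h.choose + 1) else 0

lemma jump_at {t : ℕ → ℕ} (ht : StrictMono t) (k : ℕ) : jump t (k % 2) (t k) = t (k + 1) := by
  classical
  have hex : ∃ k', k' % 2 = k % 2 ∧ t k' = t k := ⟨k, rfl, rfl⟩
  have h1 : hex.choose = k := ht.injective hex.choose_spec.2
  show (if h : ∃ k', k' % 2 = k % 2 ∧ t k' = t k then t (h.choose + 1) else 0) = _
  rw [dif_pos hex, h1]

lemma jump_cases {t : ℕ → ℕ} (ht : StrictMono t) (p n : ℕ) :
    jump t p n = 0 ∨ ∃ k, k % 2 = p ∧ t k = n ∧ jump t p n = t (k + 1) := by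
  classical
  by_cases hex : ∃ k, k % 2 = p ∧ t k = n
  · right
    obtain ⟨k, rfl, rfl⟩ := hex
    exact ⟨k, rfl, rfl, jump_at ht k⟩
  · left
    show (if h : ∃ k, k % 2 = p ∧ t k = n then t (h.choose + 1) else 0) = _
    rw [dif_neg hex]

lemma jump_two {t : ℕ → ℕ} (ht : StrictMono t) (m n : ℕ) :
    jump t 0 m ≤ max m n ∨ jump t 1 n ≤ max m n := by
  rcases jump_cases ht 0 m with h | ⟨k, hk, hm, h⟩
  · left; omega
  rcases jump_cases ht 1 n with h' | ⟨l, hl, hn, h'⟩
  · right; omega
  rcases lt_trichotomy k l with hkl | hkl | hkl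
  · left
    have : t (k + 1) ≤ t l := ht.monotone hkl
    rw [h]; omega
  · omega
  · right
    have : t (l + 1) ≤ t k := ht.monotone hkl
    rw [h']; omega

/-- the values of `jump t p` below `t k` depend on `t` up to `k` only -/
lemma jump_congr {t t' : ℕ → ℕ} (ht : StrictMono t) (ht' : StrictMono t') (k : ℕ)
    (h : ∀ j ≤ k, t j = t' j) (p n : ℕ) (hn : n < t k) : jump t p n = jump t' p n := by
  rcases jump_cases ht p n with h1 | ⟨j, hj, hjn, h1⟩
  · rcases jump_cases ht' p n with h2 | ⟨j, hj, hjn, h2⟩
    · rw [h1, h2]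
    · exfalso
      have hjk : j < k := by
        by_contra hcon
        push Not at hcon
        have := ht'.monotone hcon
        rw [← h k le_rfl] at this
        omega
      have h3 : t j = n := by rw [h j hjk.le, hjn]
      have h4 := jump_at ht j
      rw [hj, h3, h1] at h4
      have := ht.le_apply (x := j + 1)
      omega
  · have hjk : j < k := by
      by_contra hcon
      push Not at hcon
      have := ht.monotone hcon
      omega
    have h3 : t' j = n := by rw [← h j hjk.le, hjn]
    have h4 := jump_at ht' j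
    rw [hj, h3] at h4
    rw [h1, h4, h (j + 1) hjk]

lemma res_congr {b b' : ℕ → ℕ} {n : ℕ} (h : ∀ m < n, b m = b' m) : res b n = res b' n := by
  unfold res
  exact List.map_congr_left fun m hm => h m (List.mem_range.1 hm)

theorem exists_rec_nat {T : Type} (R : (a : ℕ) → ((b : ℕ) → b < a → T) → T → Prop)
    (h : ∀ a f, ∃ t, R a f t) : ∃ D : ℕ → T, ∀ a, R a (fun b _ => D b) (D a) := by
  classical
  let F : (a : ℕ) → ((b : ℕ) → b < a → T) → T := fun a f => Classical.choose (h a f)
  have hF : ∀ a f, R a f (F a f) := fun a f => Classical.choose_spec (h a f)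
  let wf : WellFounded (fun x y : ℕ => x < y) := wellFounded_lt
  refine ⟨wf.fix F, fun a => ?_⟩
  have h1 := hF a (fun b _ => wf.fix F b)
  have h2 : wf.fix F a = F a (fun b _ => wf.fix F b) := wf.fix_eq F a
  rw [h2]
  exact h1

/-- extension of a finite sequence -/
def extend (k : ℕ) (f : (b : ℕ) → b < k + 1 → ℕ) : ℕ → ℕ := fun j =>
  if h : j < k + 1 then f j h else f k (Nat.lt_succ_self k) + (j - k)

lemma diag (g : ℕ → List ℕ → ℕ) (r : ℕ → ℕ → ℕ) :
    ∃ t : ℕ → ℕ, StrictMono t ∧ ∀ n, ∀ p < 2, (∃ m, g n (res (jump t p) m) < jump t p m) ∧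
      jump t p ≠ r n := by
  classical
  have hrec := exists_rec_nat (fun k (f : (b : ℕ) → b < k → ℕ) (v : ℕ) =>
    ∀ k' (hk : k = k' + 1), (∀ b (hb : b < k), f b hb < v) ∧ ∀ n ≤ k,
      ∀ p < 2, g n (res (jump (extend k' (fun b hb => f b (by omega))) p) (f k' (by omega))) < v ∧
        r n (f k' (by omega)) < v) (by
    intro k f
    rcases k with _ | k'
    · exact ⟨0, fun k' hk => by omega⟩
    · let v := (∑ b : Fin (k' + 1), f b.1 b.2) + (∑ n ∈ Finset.range (k' + 2),
        ∑ p ∈ Finset.range 2,
          (g n (res (jump (extend k' f) p) (f k' (Nat.lt_succ_self _)))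
            + r n (f k' (Nat.lt_succ_self _)))) + 1
      refine ⟨v, fun k'' hk => ?_⟩
      have hkk : k' = k'' := by omega
      subst hkk
      refine ⟨fun b hb => ?_, fun n hn p hp => ?_⟩
      · have : f b hb ≤ ∑ b : Fin (k' + 1), f b.1 b.2 :=
          Finset.single_le_sum (f := fun b : Fin (k' + 1) => f b.1 b.2) (fun _ _ => Nat.zero_le _)
            (Finset.mem_univ (⟨b, hb⟩ : Fin (k' + 1)))
        show f b hb < _
        omega
      · have h1 : (g n (res (jump (extend k' f) p) (f k' (Nat.lt_succ_self _)))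
            + r n (f k' (Nat.lt_succ_self _))) ≤ ∑ p ∈ Finset.range 2,
          (g n (res (jump (extend k' f) p) (f k' (Nat.lt_succ_self _)))
            + r n (f k' (Nat.lt_succ_self _))) :=
          Finset.single_le_sum (f := fun p => (g n (res (jump (extend k' f) p)
            (f k' (Nat.lt_succ_self _))) + r n (f k' (Nat.lt_succ_self _))))
            (fun _ _ => Nat.zero_le _) (Finset.mem_range.2 hp)
        have h2 : (∑ p ∈ Finset.range 2,
          (g n (res (jump (extend k' f) p) (f k' (Nat.lt_succ_self _)))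
            + r n (f k' (Nat.lt_succ_self _)))) ≤ ∑ n ∈ Finset.range (k' + 2),
        ∑ p ∈ Finset.range 2,
          (g n (res (jump (extend k' f) p) (f k' (Nat.lt_succ_self _)))
            + r n (f k' (Nat.lt_succ_self _))) :=
          Finset.single_le_sum (f := fun n => ∑ p ∈ Finset.range 2,
          (g n (res (jump (extend k' f) p) (f k' (Nat.lt_succ_self _)))
            + r n (f k' (Nat.lt_succ_self _)))) (fun _ _ => Nat.zero_le _)
            (Finset.mem_range.2 (by omega))
        constructor
        · show g n (res (jump (extend k' f) p) (f k' (Nat.lt_succ_self _))) < _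
          omega
        · show r n (f k' (Nat.lt_succ_self _)) < _
          omega)
  obtain ⟨t, ht⟩ := hrec
  have hmono : StrictMono t := strictMono_nat_of_lt_succ fun k =>
    (ht (k + 1) k rfl).1 k (Nat.lt_succ_self k)
  refine ⟨t, hmono, fun n p hp => ?_⟩
  -- a large index of the right parity
  obtain ⟨k, hkn, hkp⟩ : ∃ k, n ≤ k ∧ k % 2 = p := ⟨2 * n + p, by omega, by omega⟩
  have h1 := (ht (k + 1) k rfl).2 n (by omega) p hp
  have h2 := jump_at hmono k
  rw [hkp] at h2
  have hext : StrictMono (extend k (fun b _ => t b)) := by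
    refine strictMono_nat_of_lt_succ fun j => ?_
    unfold extend
    by_cases hj : j + 1 < k + 1
    · rw [dif_pos hj, dif_pos (by omega)]
      exact hmono (Nat.lt_succ_self j)
    · by_cases hj2 : j < k + 1
      · rw [dif_pos hj2, dif_neg hj]
        have : j = k := by omega
        subst this
        omega
      · rw [dif_neg hj2, dif_neg hj]
        omega
  have h3 : res (jump (extend k (fun b _ => t b)) p) (t k) = res (jump t p) (t k) := by
    refine res_congr fun m hm => ?_
    refine (jump_congr hmono hext k (fun j hj => ?_) p m hm).symm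
    unfold extend
    rw [dif_pos (by omega)]
  constructor
  · refine ⟨t k, ?_⟩
    rw [h2, ← h3]
    exact h1.1
  · intro he
    have h4 := congrFun he (t k)
    rw [h2] at h4
    have h5 : r n (t k) < t (k + 1) := h1.2
    omega

end Pool.Agent.X216.FW
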