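import Pool.Agent.X216.FW.MA
import Pool.Agent.X216.FW.CH

/-!
# The example under the continuum hypothesis
-/

set_option autoImplicit false

namespace Pool.Agent.X216.FW

open Set Filter Topology Cardinal

/-- Under the continuum hypothesis there is a Lindelof tree whose square is not Lindelof. -/
theorem ch_example (hCH : (ℵ₁ : Cardinal.{0}) = 𝔠) :
    ∃ (T : Type) (_ : PartialOrder T), IsTree T ∧ LindelofTree T ∧ ¬ LindelofProd T T := by
  classical
  obtain ⟨G⟩ : Nonempty (Om ≃ (List ℕ → ℕ)) := by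
    rw [← Cardinal.eq, mk_Om, hCH]
    simp
  obtain ⟨r⟩ : Nonempty (Om ≃ (ℕ → ℕ)) := by
    rw [← Cardinal.eq, mk_Om, hCH]
    simp
  have h1 : ∀ α : Om, ∃ t : ℕ → ℕ, StrictMono t ∧ ∀ β ≤ α, ∀ p < 2,
      (∃ m, G β (res (jump t p) m) < jump t p m) ∧ jump t p ≠ r β := by
    intro α
    obtain ⟨e, he⟩ := (countable_Iic_Om α).exists_eq_range ⟨α, self_mem_Iic⟩
    obtain ⟨t, ht, ht2⟩ := diag (fun n => G (e n)) (fun n => r (e n))
    refine ⟨t, ht, fun β hβ p hp => ?_⟩
    have h2 : β ∈ Set.range e := he ▸ hβ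
    obtain ⟨n, rfl⟩ := h2
    exact ht2 n p hp
  choose t ht ht2 using h1
  let B : Set (ℕ → ℕ) := {b | ∃ α : Om, ∃ p < 2, b = jump (t α) p}
  refine ⟨TB B, inferInstance, isTree_TB B, lindelof_TB ?_, ?_⟩
  · intro g
    obtain ⟨β, rfl⟩ := G.surjective g
    have hc : (((fun α => jump (t α) 0) '' Iic β) ∪ ((fun α => jump (t α) 1) '' Iic β)).Countable :=
      ((countable_Iic_Om β).image _).union ((countable_Iic_Om β).image _)
    refine hc.mono ?_
    rintro b ⟨⟨α, p, hp, rfl⟩, hb⟩
    have hαβ : α ≤ β := by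
      by_contra hcon
      push Not at hcon
      obtain ⟨m, hm⟩ := (ht2 α β hcon.le p hp).1
      exact absurd (hb m) (not_le.2 hm)
    rcases (by omega : p = 0 ∨ p = 1) with rfl | rfl
    · exact Or.inl ⟨α, hαβ, rfl⟩
    · exact Or.inr ⟨α, hαβ, rfl⟩
  · refine not_lindelof_TB (I := Om) not_countable_Om
      (fun α => ⟨jump (t α) 0, α, 0, by norm_num, rfl⟩)
      (fun α => ⟨jump (t α) 1, α, 1, by norm_num, rfl⟩) ?_ ?_
      (fun m n => ⟨max m n, fun α => jump_two (ht α) m n⟩)
    · intro x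
      obtain ⟨β, hβ⟩ := r.surjective x.1
      refine (countable_Iic_Om β).mono fun α hα => ?_
      by_contra hcon
      rw [mem_Iic, not_le] at hcon
      refine (ht2 α β hcon.le 0 (by norm_num)).2 ?_
      rw [hβ]
      exact congrArg Subtype.val hα
    · intro x
      obtain ⟨β, hβ⟩ := r.surjective x.1
      refine (countable_Iic_Om β).mono fun α hα => ?_
      by_contra hcon
      rw [mem_Iic, not_le] at hcon
      refine (ht2 α β hcon.le 1 (by norm_num)).2 ?_
      rw [hβ]
      exact congrArg Subtype.val hα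

end Pool.Agent.X216.FW
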