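import Mathlib

/-!
# Trees in the fine wedge topology
-/

set_option autoImplicit false

namespace Pool.Agent.X216.FW

open Set

/-- A partially ordered set is a tree if for every `x` the set of the elements below `x` is
well-ordered. -/
def IsTree (T : Type) [PartialOrder T] : Prop :=
  ∀ x : T, IsWellOrder (Iio x) (fun a b => a.1 < b.1)

/-- The fine wedge topology: the topology generated by the sets `V_t = {s | t ≤ s}` and their
complements. -/
def fineWedge (T : Type) [PartialOrder T] : TopologicalSpace T :=
  TopologicalSpace.generateFrom ({U | ∃ t : T, U = Ici t} ∪ {U | ∃ t : T, U = (Ici t)ᶜ})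

/-- `T` is Lindelof in the fine wedge topology. -/
def LindelofTree (T : Type) [PartialOrder T] : Prop := @LindelofSpace T (fineWedge T)

/-- `S × T` is Lindelof in the product of the fine wedge topologies. -/
def LindelofProd (S T : Type) [PartialOrder S] [PartialOrder T] : Prop :=
  @LindelofSpace (S × T) (@instTopologicalSpaceProd S T (fineWedge S) (fineWedge T))

end Pool.Agent.X216.FW
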