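import Pool.Agent.X216.FW.Tree
import Pool.Agent.H995R3.Kurepa.Bmr
import Pool.Agent.W866.SS.Solovay

/-!
# Products of two Lindelof trees under Martin's axiom
-/

set_option autoImplicit false

namespace Pool.Agent.X216.FW

open Set Filter Topology Cardinal Pool.Agent.W684

/-- the well-ordered set of the countable ordinals -/
abbrev Om : Type := (ℵ₁ : Cardinal.{0}).ord.ToType

lemma mk_Om : #Om = ℵ₁ := Cardinal.mk_ord_toType _

lemma countable_Iio_Om (a : Om) : (Set.Iio a).Countable := by
  have h3 := Cardinal.mk_Iio_toType_ord_lt a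
  rw [← Cardinal.le_aleph0_iff_set_countable]
  have h6 : #(Set.Iio a) < Order.succ ℵ₀ := by
    rw [Cardinal.succ_aleph0]
    exact h3
  exact Order.lt_succ_iff.1 h6

lemma countable_Iic_Om (a : Om) : (Set.Iic a).Countable := by
  have h5 : Set.Iic a = insert a (Set.Iio a) := by
    ext b
    simp [le_iff_eq_or_lt]
  rw [h5]
  exact (countable_Iio_Om a).insert a

lemma not_countable_Om : ¬ (Set.univ : Set Om).Countable := by
  rw [← Cardinal.le_aleph0_iff_set_countable, Cardinal.mk_univ, Cardinal.mk_ord_toType]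
  exact not_le.2 Cardinal.aleph0_lt_aleph_one

instance : Nonempty Om := by
  by_contra h
  rw [not_nonempty_iff] at h
  exact not_countable_Om (Set.to_countable _)

theorem exists_rec {I : Type} [LinearOrder I] [WellFoundedLT I] {T : Type}
    (R : (a : I) → ((b : I) → b < a → T) → T → Prop) (h : ∀ a f, ∃ t, R a f t) :
    ∃ D : I → T, ∀ a, R a (fun b _ => D b) (D a) := by
  classical
  let F : (a : I) → ((b : I) → b < a → T) → T := fun a f => Classical.choose (h a f)
  have hF : ∀ a f, R a f (F a f) := fun a f => Classical.choose_spec (h a f)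
  let wf : WellFounded (fun x y : I => x < y) := wellFounded_lt
  refine ⟨wf.fix F, fun a => ?_⟩
  have h1 := hF a (fun b _ => wf.fix F b)
  have h2 : wf.fix F a = F a (fun b _ => wf.fix F b) := wf.fix_eq F a
  rw [h2]
  exact h1

section

variable {S T : Type} [PartialOrder S] [PartialOrder T] [TopologicalSpace S] [TopologicalSpace T]

/-- If the product is not Lindelof, there is a family indexed by the countable ordinals without
condensation points. -/
lemma exists_family (hS : IsTree S) (hσ : ‹TopologicalSpace S› = fineWedge S) [LindelofSpace S]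
    (hT : IsTree T) (hτ : ‹TopologicalSpace T› = fineWedge T) [LindelofSpace T]
    (hn : ¬ LindelofSpace (S × T)) :
    ∃ w : Om → S × T, ∀ p : S × T, ∃ O : Set (S × T), IsOpen O ∧ p ∈ O ∧
      {i | w i ∈ O}.Countable := by
  classical
  -- a cover without countable subcover
  obtain ⟨O, hO1, hO2, hO3⟩ : ∃ O : S × T → Set (S × T), (∀ p, IsOpen (O p)) ∧ (∀ p, p ∈ O p) ∧
      ∀ C : Set (S × T), C.Countable → ∃ q, ∀ p ∈ C, q ∉ O p := by
    by_contra hcon
    push Not at hcon
    apply hn
    refine ⟨isLindelof_of_countable_subcover fun {ι} U hU hcov => ?_⟩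
    have h1 : ∀ p : S × T, ∃ i, p ∈ U i := fun p => mem_iUnion.1 (hcov (mem_univ p))
    choose i hi using h1
    obtain ⟨C, hC, hC2⟩ := hcon (fun p => U (i p)) (fun p => hU _) hi
    refine ⟨i '' C, hC.image _, fun q _ => ?_⟩
    obtain ⟨p, hp, hq⟩ := hC2 q
    exact mem_iUnion₂.2 ⟨i p, mem_image_of_mem _ hp, hq⟩
  obtain ⟨w, hw⟩ := exists_rec (I := Om) (T := S × T)
    (fun a f q => ∀ b (hb : b < a) c (hc : c < a), ∀ s ≤ (f b hb).1, ∀ t ≤ (f c hc).2, q ∉ O (s, t))
    (by
      intro a f
      let C : Set (S × T) := ⋃ b : Iio a, ⋃ c : Iio a, Iic (f b.1 b.2).1 ×ˢ Iic (f c.1 c.2).2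
      have hC : C.Countable := by
        have : Countable (Iio a) := (countable_Iio_Om a).to_subtype
        refine countable_iUnion fun b => countable_iUnion fun c => ?_
        exact (countable_Iic hS hσ _).prod (countable_Iic hT hτ _)
      obtain ⟨q, hq⟩ := hO3 C hC
      refine ⟨q, fun b hb c hc s hs t ht => hq (s, t) ?_⟩
      exact mem_iUnion.2 ⟨⟨b, hb⟩, mem_iUnion.2 ⟨⟨c, hc⟩, hs, ht⟩⟩)
  refine ⟨w, fun p => ?_⟩
  by_cases h1 : ∃ b, p.1 ≤ (w b).1
  · by_cases h2 : ∃ c, p.2 ≤ (w c).2
    · obtain ⟨b, hb⟩ := h1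
      obtain ⟨c, hc⟩ := h2
      refine ⟨O p, hO1 p, hO2 p, (countable_Iic_Om (max b c)).mono ?_⟩
      intro a ha
      by_contra hlt
      rw [mem_Iic, not_le] at hlt
      exact hw a b ((le_max_left _ _).trans_lt hlt) c ((le_max_right _ _).trans_lt hlt) p.1 hb
        p.2 hc ha
    · push Not at h2
      refine ⟨Set.univ ×ˢ Ici p.2, isOpen_univ.prod (isOpen_Ici hτ _), ⟨mem_univ _, self_mem_Ici⟩, ?_⟩
      refine countable_empty.mono ?_
      intro a ha
      exact h2 a ha.2
  · push Not at h1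
    refine ⟨Ici p.1 ×ˢ Set.univ, (isOpen_Ici hσ _).prod isOpen_univ, ⟨self_mem_Ici, mem_univ _⟩, ?_⟩
    refine countable_empty.mono ?_
    intro a ha
    exact h1 a ha.1

omit [PartialOrder S] [PartialOrder T] in
lemma countable_fiber (w : Om → S × T) [LindelofSpace T]
    (hw : ∀ p : S × T, ∃ O : Set (S × T), IsOpen O ∧ p ∈ O ∧ {i | w i ∈ O}.Countable) (y : S) :
    {i | (w i).1 = y}.Countable := by
  by_contra hunc
  obtain ⟨b, hb⟩ := exists_condensation_on (fun i => (w i).2) _ hunc
  obtain ⟨O, hO1, hO2, hO3⟩ := hw (y, b)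
  refine hb {t | (y, t) ∈ O} (hO1.preimage (by fun_prop)) hO2 (hO3.mono ?_)
  rintro i ⟨hi, hi2⟩
  have hi3 : (y, (w i).2) ∈ O := hi2
  have hi4 : (w i).1 = y := hi
  show w i ∈ O
  rw [← hi4] at hi3
  exact hi3

lemma countable_next (hS : IsTree S) (hσ : ‹TopologicalSpace S› = fineWedge S)
    [LindelofSpace T] (w : Om → S × T)
    (hw : ∀ p : S × T, ∃ O : Set (S × T), IsOpen O ∧ p ∈ O ∧ {i | w i ∈ O}.Countable) (a : S) :
    {c | ∃ i, a < (w i).1 ∧ nxt a (w i).1 = c}.Countable := by
  by_contra hunc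
  set Sg := {c | ∃ i, a < (w i).1 ∧ nxt a (w i).1 = c} with hSg
  choose! i hi1 hi2 using fun c (hc : c ∈ Sg) => hc
  obtain ⟨b, hb⟩ := exists_condensation_on (fun c => (w (i c)).2) _ hunc
  obtain ⟨O, hO1, hO2, hO3⟩ := hw (a, b)
  obtain ⟨O1, O2, h1, h2, h3, h4, h5⟩ := isOpen_prod_iff.1 hO1 a b hO2
  obtain ⟨H, hH1, hH2, hH3⟩ := exists_basic hS hσ h1 a h3
  refine hb O2 h2 h4 ?_
  have hsub : {c ∈ Sg | (w (i c)).2 ∈ O2} ⊆ (nxt a '' H) ∪ {c ∈ Sg | w (i c) ∈ O} := by
    rintro c ⟨hc, hc2⟩
    by_cases hm : (w (i c)).1 ∈ ⋃ h ∈ H, Ici h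
    · left
      obtain ⟨h, hh, hle⟩ := mem_iUnion₂.1 hm
      refine ⟨h, hh, ?_⟩
      rw [hS.nxt_eq (hH2 h hh) hle]
      exact hi2 c hc
    · right
      exact ⟨hc, h5 ⟨hH3 ⟨(hi1 c hc).le, hm⟩, hc2⟩⟩
  refine ((hH1.image _).countable.union ?_).mono hsub
  have hinj : InjOn i Sg := by
    intro c hc c' hc' h
    rw [← hi2 c hc, ← hi2 c' hc', h]
  have : (i '' {c ∈ Sg | w (i c) ∈ O}).Countable := hO3.mono (by
    rintro _ ⟨c, hc, rfl⟩
    exact hc.2)
  exact countable_of_injective_of_countable_image (hinj.mono fun c hc => hc.1) this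

end

/-- the version of Martin's axiom for partial orders -/
lemma kurepaMA (h : MartinAxiomAleph1) : Pool.Agent.H995R3.Kurepa.MartinAxiomAleph1 := by
  intro P _ _ hP D hD hD2
  exact h P hP D hD hD2

/-- Under Martin's axiom for `ℵ₁` dense sets the product of two Lindelof trees is Lindelof. -/
theorem product (hMA : MartinAxiomAleph1) (S T : Type) [PartialOrder S] [PartialOrder T]
    (hS : IsTree S) (hT : IsTree T) (hSL : LindelofTree S) (hTL : LindelofTree T) :
    LindelofProd S T := by
  classical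
  let _ : TopologicalSpace S := fineWedge S
  let _ : TopologicalSpace T := fineWedge T
  have hLS : LindelofSpace S := hSL
  have hLT : LindelofSpace T := hTL
  by_contra hn
  obtain ⟨w, hw⟩ := exists_family hS rfl hT rfl hn
  have hfib := countable_fiber w hw
  have hnext := countable_next hS rfl w hw
  let y : Om → S := fun i => (w i).1
  -- the subtree generated by the family
  let N : Set S := {c | ∃ i, c ≤ y i}
  have hN : #N ≤ ℵ₁ := by
    have e : N = ⋃ i : Om, Iic (y i) := by
      ext c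
      simp [N]
    rw [e]
    refine (mk_iUnion_le_sum_mk).trans ?_
    refine (Cardinal.sum_le_sum _ (fun _ => ℵ₀) fun i => ?_).trans ?_
    · exact Cardinal.le_aleph0_iff_set_countable.2 (countable_Iic hS rfl _)
    · rw [Cardinal.sum_const, Cardinal.lift_id, Cardinal.lift_id, mk_Om]
      exact (mul_le_mul' le_rfl (aleph0_le_aleph 1)).trans (mul_eq_self (aleph0_le_aleph 1)).le
  obtain ⟨f, hf⟩ := Pool.Agent.H995R3.Kurepa.bmr (W := N) (R := fun a b => a.1 < b.1)
    (S := Set.univ) (kurepaMA hMA) hN (fun a => lt_irrefl _)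
    (by
      intro a a' b h1 h2
      rcases hS.lin (x := b.1) h1.le h2.le with h | h
      · rcases h.eq_or_lt with h | h
        · exact Or.inl (Subtype.ext h)
        · exact Or.inr (Or.inl h)
      · rcases h.eq_or_lt with h | h
        · exact Or.inl (Subtype.ext h.symm)
        · exact Or.inr (Or.inr h))
    (by
      intro b
      refine ((countable_Iic hS rfl b.1).preimage Subtype.val_injective).mono ?_
      intro a ha
      exact ha.le)
    (by
      intro C _ hC
      have h1 : (Subtype.val '' C).Countable := by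
        refine countable_chain hS rfl _ ?_
        rintro _ ⟨a, ha, rfl⟩ _ ⟨b, hb, rfl⟩
        by_cases hab : a = b
        · exact Or.inl (by rw [hab])
        · rcases hC ha hb hab with h | h
          · exact Or.inl h.le
          · exact Or.inr h.le
      exact countable_of_injective_of_countable_image Subtype.val_injective.injOn h1)
  -- enumerate the immediate successors
  have hidx : ∀ a : S, ∃ e : S → ℕ, InjOn e {c | ∃ i, a < y i ∧ nxt a (y i) = c} := by
    intro a
    exact Set.countable_iff_exists_injOn.1 (hnext a)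
  choose e he using hidx
  -- the functions to be dominated
  let F : Om → ℕ → ℕ := fun i n =>
    if h : ∃ c : N, c.1 < y i ∧ f c = n then e h.choose.1 (nxt h.choose.1 (y i)) else 0
  have hF : ∀ i (c : N), c.1 < y i → F i (f c) = e c.1 (nxt c.1 (y i)) := by
    intro i c hc
    have hex : ∃ c' : N, c'.1 < y i ∧ f c' = f c := ⟨c, hc, rfl⟩
    have h1 := hex.choose_spec
    have h2 : hex.choose = c := by
      by_contra hne
      rcases hS.lin (x := y i) h1.1.le hc.le with h | h
      · rcases h.eq_or_lt with h | h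
        · exact hne (Subtype.ext h)
        · exact hf _ (mem_univ _) _ (mem_univ _) h h1.2
      · rcases h.eq_or_lt with h | h
        · exact hne (Subtype.ext h.symm)
        · exact hf _ (mem_univ _) _ (mem_univ _) h h1.2.symm
    show (if h : ∃ c' : N, c'.1 < y i ∧ f c' = f c then e h.choose.1 (nxt h.choose.1 (y i)) else 0)
      = _
    rw [dif_pos hex, h2]
  obtain ⟨G, hG⟩ := Pool.Agent.W866.SS.dominate hMA (M := ℕ) (ι := Om) mk_Om.le F
  let code : Om → Finset (ℕ × ℕ) := fun i => (hG i).toFinset.image (fun n => (n, F i n))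
  obtain ⟨c0, hc0⟩ : ∃ c0, ¬ {i | code i = c0}.Countable := by
    by_contra hcon
    push Not at hcon
    apply not_countable_Om
    refine (countable_iUnion hcon).mono fun i _ => ?_
    exact mem_iUnion.2 ⟨code i, rfl⟩
  set B := {i | code i = c0} with hB
  have hfin : ∀ n, {m | ∃ i ∈ B, F i n = m}.Finite := by
    intro n
    refine ((Set.finite_Iic (G n)).union ((c0.image Prod.snd).finite_toSet)).subset ?_
    rintro m ⟨i, hi, rfl⟩
    by_cases h : G n < F i n
    · right
      have h1 : (n, F i n) ∈ code i := by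
        refine Finset.mem_image.2 ⟨n, ?_, rfl⟩
        rw [Set.Finite.mem_toFinset]
        exact h
      have h2 : code i = c0 := hi
      rw [h2] at h1
      exact Finset.mem_coe.2 (Finset.mem_image.2 ⟨_, h1, rfl⟩)
    · left
      exact not_lt.1 h
  obtain ⟨a, ha⟩ := exists_condensation_on y B hc0
  by_cases haN : a ∈ N
  · let H : Set S := {h | ∃ i ∈ B, a < y i ∧ nxt a (y i) = h}
    have hH : H.Finite := by
      refine Set.Finite.of_finite_image (f := e a) ((hfin (f ⟨a, haN⟩)).subset ?_) ?_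
      · rintro _ ⟨_, ⟨i, hi, hai, rfl⟩, rfl⟩
        exact ⟨i, hi, hF i ⟨a, haN⟩ hai⟩
      · refine (he a).mono ?_
        rintro _ ⟨i, _, hai, rfl⟩
        exact ⟨i, hai, rfl⟩
    have hH2 : ∀ h ∈ H, a < h := by
      rintro _ ⟨i, _, hai, rfl⟩
      exact (hS.nxt_spec hai).1.1
    refine ha _ (isOpen_basic rfl a H hH) (mem_basic hH2) ((hfib a).mono ?_)
    rintro i ⟨hi, hi2, hi3⟩
    have hi4 : a ≤ y i := hi2
    rcases hi4.eq_or_lt with h | h
    · exact h.symm
    · exact (hi3 (mem_iUnion₂.2 ⟨nxt a (y i), ⟨i, hi, h, rfl⟩, (hS.nxt_spec h).1.2⟩)).elim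
  · refine ha _ (isOpen_Ici rfl a) self_mem_Ici (countable_empty.mono ?_)
    rintro i ⟨_, hi⟩
    exact haN ⟨i, hi⟩

end Pool.Agent.X216.FW
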