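import Pool.Agent.X216.FW.Defs

/-!
# General facts on trees in the fine wedge topology
-/

set_option autoImplicit false

namespace Pool.Agent.X216.FW

open Set Filter Topology Cardinal

section order

variable {T : Type} [PartialOrder T]

lemma IsTree.lin (hT : IsTree T) {x y z : T} (hy : y ≤ x) (hz : z ≤ x) : y ≤ z ∨ z ≤ y := by
  rcases hy.eq_or_lt with rfl | hy
  · exact Or.inr hz
  rcases hz.eq_or_lt with rfl | hz
  · exact Or.inl hy.le
  have := hT x
  rcases trichotomous_of (fun a b : Iio x => a.1 < b.1) ⟨y, hy⟩ ⟨z, hz⟩ with h | h | h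
  · exact Or.inl h.le
  · exact Or.inl (congrArg Subtype.val h).le
  · exact Or.inr h.le

/-- every nonempty set bounded by `x` has a minimum -/
lemma IsTree.exists_min (hT : IsTree T) {x : T} (S : Set T) (hS : S.Nonempty)
    (hb : ∀ y ∈ S, y ≤ x) : ∃ m ∈ S, ∀ y ∈ S, m ≤ y := by
  classical
  have := hT x
  by_cases h : ∃ y ∈ S, y < x
  · obtain ⟨y, hy, hyx⟩ := h
    have hwf : WellFounded (fun a b : Iio x => a.1 < b.1) := IsWellFounded.wf
    obtain ⟨m, hm, hmin⟩ := hwf.has_min {a : Iio x | a.1 ∈ S} ⟨⟨y, hyx⟩, hy⟩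
    refine ⟨m.1, hm, fun z hz => ?_⟩
    rcases (hb z hz).eq_or_lt with rfl | hzx
    · exact m.2.le
    · rcases hT.lin (x := x) m.2.le hzx.le with h | h
      · exact h
      · rcases h.eq_or_lt with rfl | h
        · exact le_rfl
        · exact absurd h (hmin ⟨z, hzx⟩ hz)
  · push Not at h
    obtain ⟨y, hy⟩ := hS
    have hx : ∀ z ∈ S, z = x := fun z hz => by
      by_contra hne
      exact h z hz (lt_of_le_of_ne (hb z hz) hne)
    refine ⟨y, hy, fun z hz => ?_⟩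
    rw [hx y hy, hx z hz]

open Classical in
/-- the least element of `(a, y]` -/
noncomputable def nxt (a y : T) : T :=
  if h : ∃ c, (a < c ∧ c ≤ y) ∧ ∀ c', a < c' → c' ≤ y → c ≤ c' then h.choose else a

lemma IsTree.nxt_spec (hT : IsTree T) {a y : T} (h : a < y) :
    (a < nxt a y ∧ nxt a y ≤ y) ∧ ∀ c', a < c' → c' ≤ y → nxt a y ≤ c' := by
  have hex : ∃ c, (a < c ∧ c ≤ y) ∧ ∀ c', a < c' → c' ≤ y → c ≤ c' := by
    obtain ⟨m, hm, hmin⟩ := hT.exists_min (x := y) {c | a < c ∧ c ≤ y} ⟨y, h, le_rfl⟩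
      (fun c hc => hc.2)
    exact ⟨m, hm, fun c' h1 h2 => hmin c' ⟨h1, h2⟩⟩
  unfold nxt
  rw [dif_pos hex]
  exact hex.choose_spec

lemma IsTree.nxt_eq (hT : IsTree T) {a c y : T} (hac : a < c) (hcy : c ≤ y) :
    nxt a c = nxt a y := by
  have h1 := hT.nxt_spec hac
  have h2 := hT.nxt_spec (hac.trans_le hcy)
  refine le_antisymm (h1.2 _ h2.1.1 (h2.2 c hac hcy)) (h2.2 _ h1.1.1 (h1.1.2.trans hcy))

end order

section top

variable {T : Type} [PartialOrder T] [TopologicalSpace T]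

lemma isOpen_Ici (hτ : ‹TopologicalSpace T› = fineWedge T) (t : T) : IsOpen (Ici t) := by
  subst hτ
  exact TopologicalSpace.isOpen_generateFrom_of_mem (Or.inl ⟨t, rfl⟩)

lemma isOpen_compl_Ici (hτ : ‹TopologicalSpace T› = fineWedge T) (t : T) :
    IsOpen ((Ici t)ᶜ) := by
  subst hτ
  exact TopologicalSpace.isOpen_generateFrom_of_mem (Or.inr ⟨t, rfl⟩)

lemma isOpen_basic (hτ : ‹TopologicalSpace T› = fineWedge T) (a : T) (H : Set T) (hH : H.Finite) :
    IsOpen (Ici a \ ⋃ h ∈ H, Ici h) := by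
  have e : Ici a \ ⋃ h ∈ H, Ici h = Ici a ∩ ⋂ h ∈ H, (Ici h)ᶜ := by
    rw [sdiff_eq, compl_iUnion₂]
  rw [e]
  exact (isOpen_Ici hτ a).inter (hH.isOpen_biInter fun h _ => isOpen_compl_Ici hτ h)

omit [TopologicalSpace T] in
lemma mem_basic {a : T} {H : Set T} (hH : ∀ h ∈ H, a < h) : a ∈ Ici a \ ⋃ h ∈ H, Ici h := by
  refine ⟨self_mem_Ici, fun hm => ?_⟩
  obtain ⟨h, hh, hah⟩ := mem_iUnion₂.1 hm
  exact lt_irrefl _ ((hH h hh).trans_le hah)

/-- basic neighbourhoods -/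
lemma exists_basic (hT : IsTree T) (hτ : ‹TopologicalSpace T› = fineWedge T) {O : Set T}
    (hO : IsOpen O) : ∀ a ∈ O, ∃ H : Set T, H.Finite ∧ (∀ h ∈ H, a < h) ∧
      (Ici a \ ⋃ h ∈ H, Ici h) ⊆ O := by
  subst hτ
  induction hO with
  | basic s hs =>
    intro a ha
    rcases hs with ⟨t, rfl⟩ | ⟨t, rfl⟩
    · refine ⟨∅, finite_empty, by simp, ?_⟩
      intro x hx
      exact le_trans ha hx.1
    · by_cases hat : a < t
      · refine ⟨{t}, finite_singleton t, by simpa using hat, ?_⟩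
        intro x hx hxt
        exact hx.2 (mem_iUnion₂.2 ⟨t, rfl, hxt⟩)
      · refine ⟨∅, finite_empty, by simp, ?_⟩
        intro x hx hxt
        rcases hT.lin (x := x) hx.1 hxt with h | h
        · rcases h.eq_or_lt with rfl | h
          · exact ha self_mem_Ici
          · exact hat h
        · exact ha h
  | univ => exact fun a _ => ⟨∅, finite_empty, by simp, subset_univ _⟩
  | inter s t _ _ ihs iht =>
    intro a ha
    obtain ⟨H, h1, h2, h3⟩ := ihs a ha.1
    obtain ⟨H', h1', h2', h3'⟩ := iht a ha.2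
    refine ⟨H ∪ H', h1.union h1', fun h hh => hh.elim (h2 h) (h2' h), fun x hx => ⟨h3 ⟨hx.1, ?_⟩,
      h3' ⟨hx.1, ?_⟩⟩⟩
    · intro hm
      obtain ⟨h, hh, hxh⟩ := mem_iUnion₂.1 hm
      exact hx.2 (mem_iUnion₂.2 ⟨h, Or.inl hh, hxh⟩)
    · intro hm
      obtain ⟨h, hh, hxh⟩ := mem_iUnion₂.1 hm
      exact hx.2 (mem_iUnion₂.2 ⟨h, Or.inr hh, hxh⟩)
  | sUnion S _ ih =>
    intro a ha
    obtain ⟨s, hs, has⟩ := ha
    obtain ⟨H, h1, h2, h3⟩ := ih s hs a has
    exact ⟨H, h1, h2, h3.trans (subset_sUnion_of_mem hs)⟩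

/-- In a Lindelof space every uncountable family has a condensation point. -/
lemma exists_condensation {X ι : Type} [TopologicalSpace X] [LindelofSpace X] (f : ι → X)
    (hι : ¬ (univ : Set ι).Countable) :
    ∃ a : X, ∀ O : Set X, IsOpen O → a ∈ O → ¬ {i | f i ∈ O}.Countable := by
  by_contra hcon
  push Not at hcon
  choose O hO1 hO2 hO3 using hcon
  obtain ⟨t, ht, htu⟩ := isLindelof_univ.elim_countable_subcover O hO1
    (fun x _ => mem_iUnion.2 ⟨x, hO2 x⟩)
  apply hι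
  refine (ht.biUnion fun a _ => hO3 a).mono fun i _ => ?_
  obtain ⟨a, ha, hfa⟩ := mem_iUnion₂.1 (htu (mem_univ (f i)))
  exact mem_iUnion₂.2 ⟨a, ha, hfa⟩

/-- the same for a family indexed by an uncountable set -/
lemma exists_condensation_on {X ι : Type} [TopologicalSpace X] [LindelofSpace X] (f : ι → X)
    (B : Set ι) (hB : ¬ B.Countable) :
    ∃ a : X, ∀ O : Set X, IsOpen O → a ∈ O → ¬ {i ∈ B | f i ∈ O}.Countable := by
  obtain ⟨a, ha⟩ := exists_condensation (fun i : B => f i.1) (by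
    rwa [countable_univ_iff])
  refine ⟨a, fun O hO haO hc => ha O hO haO ?_⟩
  refine (hc.preimage Subtype.val_injective).mono ?_
  intro i hi
  exact ⟨i.2, hi⟩

/-- chains in a Lindelof tree are countable -/
lemma countable_chain (hT : IsTree T) (hτ : ‹TopologicalSpace T› = fineWedge T) [LindelofSpace T]
    (C : Set T) (hC : ∀ x ∈ C, ∀ y ∈ C, x ≤ y ∨ y ≤ x) : C.Countable := by
  by_contra hunc
  obtain ⟨a, ha⟩ := exists_condensation_on (id : T → T) C hunc
  have h1 := ha _ (isOpen_Ici hτ a) self_mem_Ici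
  -- the least element of the chain above `a`
  obtain ⟨c, hc, hac, hca⟩ : ∃ c ∈ C, a ≤ c ∧ c ≠ a := by
    by_contra hcon
    push Not at hcon
    refine h1 ((countable_singleton a).mono ?_)
    rintro c ⟨hc1, hc2⟩
    exact hcon c hc1 hc2
  have hlt : a < c := lt_of_le_of_ne hac (Ne.symm hca)
  obtain ⟨m, ⟨⟨hmC, ham⟩, hmc⟩, hmin⟩ := hT.exists_min (x := c) {y | (y ∈ C ∧ a < y) ∧ y ≤ c}
    ⟨c, ⟨hc, hlt⟩, le_rfl⟩ (fun y hy => hy.2)
  have hmin' : ∀ y ∈ C, a < y → m ≤ y := by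
    intro y hy hay
    rcases hC y hy c hc with h | h
    · exact hmin y ⟨⟨hy, hay⟩, h⟩
    · exact hmc.trans h
  refine ha _ (isOpen_basic hτ a {m} (finite_singleton m)) (mem_basic (by simpa using ham))
    ((countable_singleton a).mono ?_)
  rintro y ⟨hy, hy2⟩
  have hy3 : a ≤ y := hy2.1
  rcases hy3.eq_or_lt with h | h
  · exact h.symm
  · exact (hy2.2 (mem_iUnion₂.2 ⟨m, mem_singleton m, hmin' y hy h⟩)).elim

lemma countable_Iic (hT : IsTree T) (hτ : ‹TopologicalSpace T› = fineWedge T) [LindelofSpace T]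
    (x : T) : (Iic x).Countable :=
  countable_chain hT hτ _ fun _ ha _ hb => hT.lin (x := x) ha hb

end top

end Pool.Agent.X216.FW
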